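import Pool.Agent.Lib.MP_8a4e59_co.F.F2

set_option autoImplicit false

/-!
Final assembly, part 3: numerical inequalities and the theorem.
-/

namespace Pool.Agent.APP

open Finset ArithmeticFunction

theorem F3_tend : Filter.Tendsto (fun N : ℕ => Real.log (Real.log (N : ℝ))) Filter.atTop Filter.atTop :=
  (Real.tendsto_log_atTop.comp Real.tendsto_log_atTop).comp tendsto_natCast_atTop_atTop

/-- eventual inequalities -/
theorem F3_ev (u : ℕ) (hu : 1 ≤ u) : ∃ N₀ : ℕ, ∀ N : ℕ, N₀ ≤ N →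
    3 ≤ N ∧ 10 ≤ Real.log (Real.log (N : ℝ)) ∧
    (Real.log N) ^ 2 * ((XX (u + 1) N)⁻¹ * (N : ℝ) ^ 2 + 2 * N) + N * (2 * Real.sqrt N * Real.log N) <
      (N : ℝ) ^ 2 / (4 * XX u N * XX u N) ∧ XX (u + 1) N < N := by
  have h1 : ∀ᶠ x : ℝ in Filter.atTop, 4 * x ^ (u + 1) < Real.exp x := by
    have h := Real.tendsto_exp_div_pow_atTop (u + 1)
    filter_upwards [h.eventually_gt_atTop 4, Filter.eventually_gt_atTop 0] with x hx hx0
    rwa [lt_div_iff₀ (by positivity)] at hx
  have h2 : ∀ᶠ N : ℕ in Filter.atTop, 4 * (Real.log (Real.log (N : ℝ))) ^ (u + 1) <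
      Real.exp (Real.log (Real.log (N : ℝ))) := F3_tend.eventually h1
  have h3 : ∀ᶠ N : ℕ in Filter.atTop, 10 ≤ Real.log (Real.log (N : ℝ)) :=
    F3_tend.eventually_ge_atTop 10
  obtain ⟨N₀, hN₀⟩ := Filter.eventually_atTop.1 ((h2.and h3).and (Filter.eventually_ge_atTop 3))
  refine ⟨N₀, fun N hN => ?_⟩
  obtain ⟨⟨ha, hb⟩, hc⟩ := hN₀ N hN
  refine ⟨hc, hb, ?_⟩
  set l : ℝ := Real.log (Real.log (N : ℝ)) with hl
  have hNpos : (0 : ℝ) < N := by exact_mod_cast (by omega : 0 < N)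
  have hlogpos : 0 < Real.log (N : ℝ) := Real.log_pos (by exact_mod_cast (by omega : 1 < N))
  have hL : Real.log (N : ℝ) = Real.exp l := by rw [hl, Real.exp_log hlogpos]
  have hN' : (N : ℝ) = Real.exp (Real.exp l) := by rw [← hL, Real.exp_log hNpos]
  have hX : ∀ v : ℕ, XX v N = Real.exp (l ^ v) := fun v => rfl
  have hlu : l ≤ l ^ u := by
    calc l = l ^ 1 := (pow_one l).symm
      _ ≤ l ^ u := pow_le_pow_right₀ (by linarith) hu
  have hlu1 : l ^ (u + 1) = l * l ^ u := by rw [pow_succ]; ring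
  have hexp : 4 * (l * l ^ u) < Real.exp l := by rw [← hlu1]; exact ha
  have hlog32 : Real.log 32 ≤ 4 := by
    have : (32 : ℝ) = 2 ^ 5 := by norm_num
    rw [this, Real.log_pow]
    have := Real.log_two_lt_d9
    push_cast; linarith
  have e32 : (32 : ℝ) = Real.exp (Real.log 32) := (Real.exp_log (by norm_num)).symm
  have hll : 10 * l ^ u ≤ l * l ^ u := mul_le_mul_of_nonneg_right hb (by positivity)
  have hXlt : XX (u + 1) N < N := by
    rw [hX, hN', hlu1]
    apply Real.exp_lt_exp.2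
    nlinarith [hexp, hll, hlu]
  refine ⟨?_, hXlt⟩
  -- three terms
  have hs : Real.sqrt (N : ℝ) = Real.exp (Real.exp l / 2) := by
    rw [hN', Real.exp_half]
  have t1 : (Real.log N) ^ 2 * ((XX (u + 1) N)⁻¹ * (N : ℝ) ^ 2) ≤ (N : ℝ) ^ 2 * (Real.exp (-(2 * l ^ u)) / 32) := by
    have : (Real.log N) ^ 2 * (XX (u + 1) N)⁻¹ ≤ Real.exp (-(2 * l ^ u)) / 32 := by
      rw [le_div_iff₀ (by norm_num)]
      nth_rewrite 1 [e32]
      rw [hL, hX, hlu1, ← Real.exp_neg, ← Real.exp_nat_mul, ← Real.exp_add, ← Real.exp_add]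
      apply Real.exp_le_exp.2
      push_cast
      nlinarith [hll, hlu]
    calc _ = (N : ℝ) ^ 2 * ((Real.log N) ^ 2 * (XX (u + 1) N)⁻¹) := by ring
      _ ≤ _ := mul_le_mul_of_nonneg_left this (by positivity)
  have t2 : (Real.log N) ^ 2 * (2 * N) ≤ (N : ℝ) ^ 2 * (Real.exp (-(2 * l ^ u)) / 16) := by
    have h : (Real.log N) ^ 2 * 32 ≤ N * Real.exp (-(2 * l ^ u)) := by
      nth_rewrite 1 [e32]
      rw [hL, hN', ← Real.exp_nat_mul, ← Real.exp_add, ← Real.exp_add]
      apply Real.exp_le_exp.2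
      push_cast
      nlinarith [hll, hlu, hexp]
    calc (Real.log N) ^ 2 * (2 * N) = (N : ℝ) / 16 * ((Real.log N) ^ 2 * 32) := by ring
      _ ≤ (N : ℝ) / 16 * (N * Real.exp (-(2 * l ^ u))) := mul_le_mul_of_nonneg_left h (by positivity)
      _ = _ := by ring
  have t3 : N * (2 * Real.sqrt N * Real.log N) ≤ (N : ℝ) ^ 2 * (Real.exp (-(2 * l ^ u)) / 16) := by
    have h : 32 * Real.log N ≤ Real.sqrt N * Real.exp (-(2 * l ^ u)) := by
      nth_rewrite 1 [e32]
      rw [hs, hL, ← Real.exp_add, ← Real.exp_add]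
      apply Real.exp_le_exp.2
      nlinarith [hll, hlu, hexp]
    have hss : Real.sqrt (N : ℝ) * Real.sqrt N = N := Real.mul_self_sqrt hNpos.le
    calc N * (2 * Real.sqrt N * Real.log N) = (N : ℝ) * Real.sqrt N / 16 * (32 * Real.log N) := by ring
      _ ≤ (N : ℝ) * Real.sqrt N / 16 * (Real.sqrt N * Real.exp (-(2 * l ^ u))) :=
          mul_le_mul_of_nonneg_left h (by positivity)
      _ = (N : ℝ) * (Real.sqrt N * Real.sqrt N) / 16 * Real.exp (-(2 * l ^ u)) := by ring
      _ = _ := by rw [hss]; ring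
  have e4 : (N : ℝ) ^ 2 / (4 * XX u N * XX u N) = (N : ℝ) ^ 2 * (Real.exp (-(2 * l ^ u)) / 4) := by
    rw [hX]
    have : Real.exp (l ^ u) * Real.exp (l ^ u) = Real.exp (2 * l ^ u) := by rw [← Real.exp_add]; ring_nf
    rw [mul_assoc, this, Real.exp_neg]
    field_simp
  rw [e4]
  have hpos : 0 < (N : ℝ) ^ 2 * Real.exp (-(2 * l ^ u)) := by positivity
  nlinarith [t1, t2, t3, hpos]

theorem F3_XX_mono {N a b : ℕ} (h : 1 ≤ Real.log (Real.log (N : ℝ))) (hab : a ≤ b) : XX a N ≤ XX b N :=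
  Real.exp_le_exp.2 (pow_le_pow_right₀ h hab)

theorem S_final_of (hmain : S_main) (hB : S_thmB) (hP1 : S_P1) (hPa : S_Pa) (hPb : S_Pb) : S_final := by
  intro C hC
  obtain ⟨c, hc⟩ := hmain C hC
  obtain ⟨K, hK⟩ := hB
  obtain ⟨t₁, N₁, hst₁, h1⟩ := hPa K (c + 1 + 1) (by omega)
  obtain ⟨t₂, N₂, hst₂, h2⟩ := hPb K t₁ (t₁ + 1) le_rfl
  obtain ⟨N₃, h3⟩ := hP1 (max t₁ t₂)
  obtain ⟨N₄, h4⟩ := hc (c + 1 + 1) (by omega)
  obtain ⟨N₅, h5⟩ := hc (t₁ + 1) (by omega)
  obtain ⟨N₆, h6⟩ := F3_ev (c + 1) (by omega)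
  obtain ⟨N₇, h7⟩ := F3_ev t₁ (by omega)
  refine ⟨N₁ + N₂ + N₃ + N₄ + N₅ + N₆ + N₇, fun N hN A hA hcard => ?_⟩
  by_contra hno
  obtain ⟨hN3, hl10, hin6, hXN6⟩ := h6 N (by omega)
  obtain ⟨_, _, hin7, hXN7⟩ := h7 N (by omega)
  have hl1 : 1 ≤ Real.log (Real.log (N : ℝ)) := by linarith
  have hlogpos : 0 < Real.log (N : ℝ) := Real.log_pos (by exact_mod_cast (by omega : 1 < N))
  have hlogX : ∀ v : ℕ, 1 ≤ v → Real.log N ≤ XX v N := by
    intro v hv
    have h : XX 1 N ≤ XX v N := F3_XX_mono hl1 hv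
    refine le_trans (le_of_eq ?_) h
    unfold XX
    rw [pow_one, Real.exp_log hlogpos]
  have hX2 : ∀ v : ℕ, 2 ≤ XX v N := by
    intro v
    unfold XX
    have h : (1 : ℝ) ≤ Real.log (Real.log (N : ℝ)) ^ v := one_le_pow₀ hl1
    have h2 : Real.exp 1 ≤ Real.exp (Real.log (Real.log (N : ℝ)) ^ v) := Real.exp_le_exp.2 h
    have h3 := Real.exp_one_gt_d9
    linarith
  -- the set of integers
  set A' : Finset ℤ := A.map ⟨fun n : ℕ => (n : ℤ), Nat.cast_injective⟩ with hA'
  have hmem : ∀ z : ℤ, z ∈ A' → ∃ n ∈ A, (n : ℤ) = z := by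
    intro z hz
    simpa [hA'] using hz
  have hA'sub : A' ⊆ Finset.Icc 1 (N : ℤ) := by
    intro z hz
    obtain ⟨n, hn, rfl⟩ := hmem z hz
    have := hA hn
    rw [Finset.mem_Icc] at this ⊢
    omega
  have hcard' : (N : ℝ) / Real.log N ^ C ≤ A'.card := by
    rw [hA', Finset.card_map]; exact hcard
  have hno' : ∀ (x : ℤ) (p : ℕ), p.Prime →
      ¬ (x ∈ A' ∧ x + ((p : ℤ) - 1) ∈ A' ∧ x + 2 * ((p : ℤ) - 1) ∈ A') := by
    rintro x p hp ⟨ha, hb, hcc⟩
    obtain ⟨n, hn, hn2⟩ := hmem _ ha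
    obtain ⟨m, hm, hm2⟩ := hmem _ hb
    obtain ⟨k, hk, hk2⟩ := hmem _ hcc
    have hp2 := hp.two_le
    apply hno
    refine ⟨n, p, hp, hn, ?_, ?_⟩
    · have : n + (p - 1) = m := by omega
      rw [this]; exact hm
    · have : n + 2 * (p - 1) = k := by omega
      rw [this]; exact hk
  have hcu : XX c N ≤ XX (c + 1) N := F3_XX_mono hl1 (by omega)
  have hct : XX c N ≤ XX t₁ N := F3_XX_mono hl1 (by omega)
  have hXpos : ∀ v : ℕ, 0 < XX v N := fun v => Real.exp_pos _
  have hNpos : (0 : ℝ) < N := by exact_mod_cast (by omega : 0 < N)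
  -- case of no small exceptional modulus
  have caseA : (∀ q b y : ℕ, 1 ≤ q → (q : ℝ) ≤ XX t₁ N → b.Coprime q → y ≤ N →
      |∑ n ∈ (Finset.Icc 1 y).filter (fun n => n ≡ b [MOD q]), vonMangoldt n - y / q.totient| ≤
      N / XX t₁ N) → False := by
    intro hh
    have hPP := h1 N (by omega) hh
    obtain ⟨k, cc, ξ, B, hcc, hs, hwt, hM⟩ := h4 N (by omega) A' hA'sub hcard'
    have hcore := F2_core K N (c + 1 + 1) t₁ 1 1 ((N : ℝ) ^ 2 / XX c N) (fun _ => 0) A' hK hA'sub hno'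
      le_rfl hN3 (hlogX _ (by omega)) (hX2 _) hXN6 hPP (by norm_num) (fun n _ => by norm_num)
      k cc ξ B hcc hs hwt hM
    have hle : (N : ℝ) ^ 2 / (4 * XX (c + 1) N * XX (c + 1) N) ≤ (N : ℝ) ^ 2 / XX c N := by
      apply div_le_div_of_nonneg_left (by positivity) (hXpos _)
      have := hX2 (c + 1)
      nlinarith [hXpos (c + 1), hXpos c]
    linarith
  rcases h3 N (by omega) with hne | ⟨q₁, β, χ, hex⟩
  · apply caseA
    intro q b y hq hqX hb hy
    have hm : XX t₁ N ≤ XX (max t₁ t₂) N := F3_XX_mono hl1 (le_max_left _ _)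
    refine (hne q b y hq (hqX.trans hm) hb hy).trans ?_
    exact div_le_div_of_nonneg_left hNpos.le (hXpos _) hm
  · by_cases hq₁ : (q₁ : ℝ) ≤ XX t₁ N
    · have hm : XX t₂ N ≤ XX (max t₁ t₂) N := F3_XX_mono hl1 (le_max_right _ _)
      have hex2 : Exc (XX t₂ N) N q₁ β χ := by
        refine ⟨hex.two_le, hq₁.trans (F3_XX_mono hl1 (by omega)), hex.half_lt, hex.lt_one, hex.gap,
          hex.vals, hex.supp, hex.mul, hex.per, ?_, ?_⟩
        · intro q b y hq hqX hb hy hd
          refine (hex.main q b y hq (hqX.trans hm) hb hy hd).trans ?_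
          exact div_le_div_of_nonneg_left hNpos.le (hXpos _) hm
        · intro q b y hq hqX hb hy hd
          refine (hex.other q b y hq (hqX.trans hm) hb hy hd).trans ?_
          exact div_le_div_of_nonneg_left hNpos.le (hXpos _) hm
      have hPP := h2 N (by omega) q₁ β χ hq₁ hex2
      obtain ⟨k, cc, ξ, B, hcc, hs, hwt, hM⟩ := h5 N (by omega) A' hA'sub hcard'
      have hq₁pos : (0 : ℝ) < q₁ := by
        have := hex.two_le
        exact_mod_cast (by omega : 0 < q₁)
      have hom : ∀ n : ℕ, 2 ≤ n → 1 / (4 * XX t₁ N) ≤ 1 - χ n * (n : ℝ) ^ (β - 1) := by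
        intro n hn
        have hb1 : 1 / (4 * XX t₁ N) ≤ 1 / (4 * (q₁ : ℝ)) := by
          apply div_le_div_of_nonneg_left (by norm_num) (by positivity)
          linarith
        have hb2 : 1 / (4 * (q₁ : ℝ)) ≤ (1 - β) / 4 := by
          have := hex.gap
          have e : 1 / (4 * (q₁ : ℝ)) = (1 / (q₁ : ℝ)) / 4 := by
            field_simp
          rw [e]; linarith
        have hn2 : (2 : ℝ) ≤ n := by exact_mod_cast hn
        have hpw : (n : ℝ) ^ (β - 1) ≤ 1 - (1 - β) / 4 := by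
          have hb0 : 0 < 1 - β := by linarith [hex.lt_one]
          have hb12 : 1 - β ≤ 1 / 2 := by linarith [hex.half_lt]
          have h2l : (n : ℝ) ^ (β - 1) ≤ (2 : ℝ) ^ (β - 1) := by
            apply Real.rpow_le_rpow_of_nonpos (by norm_num) hn2
            linarith
          refine h2l.trans ?_
          rw [Real.rpow_def_of_pos (by norm_num)]
          have hlog2 := Real.log_two_gt_d9
          have hlog2' := Real.log_two_lt_d9
          -- exp(-x) ≤ 1 - x/2 for x in [0,1]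
          set x : ℝ := Real.log 2 * (1 - β) with hx
          have hx0 : 0 ≤ x := by positivity
          have hx1 : x ≤ 1 / 2 := by nlinarith
          have hexp : Real.exp (-x) ≤ 1 - x / 2 := by
            have h := Real.add_one_le_exp x
            rw [Real.exp_neg]
            rw [inv_le_comm₀ (Real.exp_pos _) (by linarith)]
            refine le_trans ?_ h
            rw [inv_le_iff_one_le_mul₀ (by linarith)]
            nlinarith
          have e : Real.log 2 * (β - 1) = -x := by rw [hx]; ring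
          rw [e]
          refine hexp.trans ?_
          rw [hx]
          nlinarith
        have hpw0 : 0 ≤ (n : ℝ) ^ (β - 1) := by positivity
        have hb0 : 0 < 1 - β := by linarith [hex.lt_one]
        have hb12 : 1 - β ≤ 1 / 2 := by linarith [hex.half_lt]
        rcases hex.vals n with h | h | h
        · rw [h, zero_mul]; linarith
        · rw [h, one_mul]; linarith
        · rw [h]; linarith
      have hcore := F2_core K N (t₁ + 1) t₂ q₁ (1 / (4 * XX t₁ N)) ((N : ℝ) ^ 2 / XX c N)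
        (fun n => χ n * (n : ℝ) ^ (β - 1)) A' hK hA'sub hno'
        (by have := hex.two_le; omega) hN3 (hlogX _ (by omega)) (hX2 _) hXN7 hPP (by
          have := hXpos t₁; positivity) hom
        k cc ξ B hcc hs hwt hM
      have hle : (N : ℝ) ^ 2 / (4 * XX t₁ N * XX t₁ N) ≤ 1 / (4 * XX t₁ N) * ((N : ℝ) ^ 2 / XX c N) := by
        have e : 1 / (4 * XX t₁ N) * ((N : ℝ) ^ 2 / XX c N) = (N : ℝ) ^ 2 / (4 * XX t₁ N * XX c N) := by
          have := hXpos t₁; have := hXpos c
          field_simp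
        rw [e]
        apply div_le_div_of_nonneg_left (by positivity)
        · have := hXpos t₁; have := hXpos c; positivity
        · have := hXpos t₁
          exact mul_le_mul_of_nonneg_left hct (by positivity)
      linarith
    · apply caseA
      intro q b y hq hqX hb hy
      rw [not_le] at hq₁
      have hm : XX t₁ N ≤ XX (max t₁ t₂) N := F3_XX_mono hl1 (le_max_left _ _)
      have hnd : ¬ q₁ ∣ q := by
        intro hd
        have h := Nat.le_of_dvd (by omega) hd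
        have h' : (q₁ : ℝ) ≤ q := by exact_mod_cast h
        linarith
      refine (hex.other q b y hq (hqX.trans hm) hb hy hnd).trans ?_
      exact div_le_div_of_nonneg_left hNpos.le (hXpos _) hm

end Pool.Agent.APP
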