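import Pool.Agent.Lib.MP_8a4e59_co.Basic
import Pool.Agent.Lib.MP_8a4e59_co.IfaceC

set_option autoImplicit false

/-!
Final assembly, part 1: from the trilinear bound to the weighted bound.
-/

namespace Pool.Agent.APP

open Finset ArithmeticFunction

open Classical in
/-- one exponential -/
theorem F1_one (N : ℕ) (δ ξ : ℝ) (g : ℤ → ℂ) (hg : ∀ n, ‖g n‖ ≤ 1) (A B : Finset ℤ)
    (hA : A ⊆ Finset.Icc 1 (N : ℤ))
    (hT : ∀ f₀ f₁ f₂ : ℤ → ℂ, (∀ n, ‖f₀ n‖ ≤ 1) → (∀ n, ‖f₁ n‖ ≤ 1) → (∀ n, ‖f₂ n‖ ≤ 1) →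
      (∀ n, f₀ n ≠ 0 → 1 ≤ n ∧ n ≤ N) → (∀ n, f₁ n ≠ 0 → 1 ≤ n ∧ n ≤ N) →
      (∀ n, f₂ n ≠ 0 → 1 ≤ n ∧ n ≤ N) →
      ‖∑ y ∈ Finset.Icc (1 : ℤ) N, ∑ n ∈ Finset.Icc (1 : ℤ) N,
        f₀ (y - n) * f₁ y * f₂ (y + n) * g n‖ ≤ δ * (N : ℝ) ^ 2) :
    ‖∑ y ∈ B, ∑ n ∈ Finset.Icc (1 : ℤ) N,
      (if y - (n - 1) ∈ A ∧ y ∈ A ∧ y + (n - 1) ∈ A then ee (ξ * ((n - 1 : ℤ) : ℝ)) else 0) * g n‖ ≤
      δ * (N : ℝ) ^ 2 + 2 * N := by
  set f₀ : ℤ → ℂ := fun z => if z + 1 ∈ A ∧ 1 ≤ z then 1 else 0 with hf₀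
  set f₁ : ℤ → ℂ := fun z => if z ∈ A ∧ z ∈ B then ee (-(ξ * z)) else 0 with hf₁
  set f₂ : ℤ → ℂ := fun z => if z - 1 ∈ A ∧ z ≤ N then ee (ξ * ((z - 1 : ℤ) : ℝ)) else 0 with hf₂
  have hAm : ∀ z ∈ A, 1 ≤ z ∧ z ≤ N := fun z hz => by
    have := hA hz; rwa [Finset.mem_Icc] at this
  have h1 := hT f₀ f₁ f₂
    (fun n => by simp only [hf₀]; split_ifs <;> simp)
    (fun n => by simp only [hf₁]; split_ifs <;> simp [norm_ee])
    (fun n => by simp only [hf₂]; split_ifs <;> simp [norm_ee])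
    (fun n hn => by
      simp only [hf₀] at hn
      by_cases h : n + 1 ∈ A ∧ 1 ≤ n
      · have := hAm _ h.1; omega
      · simp [h] at hn)
    (fun n hn => by
      simp only [hf₁] at hn
      by_cases h : n ∈ A ∧ n ∈ B
      · have := hAm _ h.1; omega
      · simp [h] at hn)
    (fun n hn => by
      simp only [hf₂] at hn
      by_cases h : n - 1 ∈ A ∧ n ≤ N
      · have := hAm _ h.1; omega
      · simp [h] at hn)
  -- reduce the outer sum to `A ∩ B`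
  have e1 : ∑ y ∈ B, ∑ n ∈ Finset.Icc (1 : ℤ) N,
      (if y - (n - 1) ∈ A ∧ y ∈ A ∧ y + (n - 1) ∈ A then ee (ξ * ((n - 1 : ℤ) : ℝ)) else 0) * g n =
      ∑ y ∈ A ∩ B, ∑ n ∈ Finset.Icc (1 : ℤ) N,
      (if y - (n - 1) ∈ A ∧ y + (n - 1) ∈ A then ee (ξ * ((n - 1 : ℤ) : ℝ)) else 0) * g n := by
    rw [← Finset.sum_subset (s₁ := A ∩ B) (s₂ := B) Finset.inter_subset_right]
    · refine Finset.sum_congr rfl fun y hy => Finset.sum_congr rfl fun n _ => ?_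
      have : y ∈ A := (Finset.mem_inter.1 hy).1
      simp [this]
    · intro y hy hy2
      have : y ∉ A := fun h => hy2 (Finset.mem_inter.2 ⟨h, hy⟩)
      simp [this]
  have e2 : ∑ y ∈ Finset.Icc (1 : ℤ) N, ∑ n ∈ Finset.Icc (1 : ℤ) N,
        f₀ (y - n) * f₁ y * f₂ (y + n) * g n =
      ∑ y ∈ A ∩ B, ∑ n ∈ Finset.Icc (1 : ℤ) N, f₀ (y - n) * f₁ y * f₂ (y + n) * g n := by
    symm
    refine Finset.sum_subset (fun y hy => hA (Finset.mem_inter.1 hy).1) ?_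
    intro y _ hy2
    have : f₁ y = 0 := by
      simp only [hf₁]
      rw [if_neg]
      intro h; exact hy2 (Finset.mem_inter.2 h)
    simp [this]
  have e3 : ‖(∑ y ∈ A ∩ B, ∑ n ∈ Finset.Icc (1 : ℤ) N,
      (if y - (n - 1) ∈ A ∧ y + (n - 1) ∈ A then ee (ξ * ((n - 1 : ℤ) : ℝ)) else 0) * g n) -
      ∑ y ∈ A ∩ B, ∑ n ∈ Finset.Icc (1 : ℤ) N, f₀ (y - n) * f₁ y * f₂ (y + n) * g n‖ ≤
      ∑ y ∈ A ∩ B, (2 : ℝ) := by
    rw [← Finset.sum_sub_distrib]
    refine (norm_sum_le _ _).trans (Finset.sum_le_sum fun y hy => ?_)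
    have hyA : y ∈ A := (Finset.mem_inter.1 hy).1
    have hyB : y ∈ B := (Finset.mem_inter.1 hy).2
    rw [← Finset.sum_sub_distrib]
    have hz : ∀ n ∈ Finset.Icc (1 : ℤ) N, n ∉ ({y, N + 1 - y} : Finset ℤ) →
        (if y - (n - 1) ∈ A ∧ y + (n - 1) ∈ A then ee (ξ * ((n - 1 : ℤ) : ℝ)) else 0) * g n -
          f₀ (y - n) * f₁ y * f₂ (y + n) * g n = 0 := by
      intro n hn hn2
      simp only [Finset.mem_insert, Finset.mem_singleton, not_or] at hn2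
      rw [Finset.mem_Icc] at hn
      have hee : ee (ξ * ((n - 1 : ℤ) : ℝ)) = ee (-(ξ * y)) * ee (ξ * ((y + n - 1 : ℤ) : ℝ)) := by
        rw [← ee_add]; congr 1; push_cast; ring
      have hf1 : f₁ y = ee (-(ξ * y)) := by simp [hf₁, hyA, hyB]
      by_cases h0 : y - (n - 1) ∈ A
      · have hh := hAm _ h0
        have hf0 : f₀ (y - n) = 1 := by
          simp only [hf₀]
          rw [if_pos]
          refine ⟨by convert h0 using 1; ring, by omega⟩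
        by_cases h2 : y + (n - 1) ∈ A
        · have hh2 := hAm _ h2
          have hf2 : f₂ (y + n) = ee (ξ * ((y + n - 1 : ℤ) : ℝ)) := by
            simp only [hf₂]
            rw [if_pos]
            refine ⟨by convert h2 using 1; ring, by omega⟩
          rw [if_pos ⟨h0, h2⟩, hf0, hf1, hf2, hee]; ring
        · have hf2 : f₂ (y + n) = 0 := by
            simp only [hf₂]
            rw [if_neg]
            intro h
            exact h2 (by convert h.1 using 1; ring)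
          rw [if_neg (fun h => h2 h.2), hf2]; ring
      · have hf0 : f₀ (y - n) = 0 := by
          simp only [hf₀]
          rw [if_neg]
          intro h
          exact h0 (by convert h.1 using 1; ring)
        rw [if_neg (fun h => h0 h.1), hf0]; ring
    have hb : ∀ n ∈ Finset.Icc (1 : ℤ) N, ‖(if y - (n - 1) ∈ A ∧ y + (n - 1) ∈ A then
        ee (ξ * ((n - 1 : ℤ) : ℝ)) else 0) * g n - f₀ (y - n) * f₁ y * f₂ (y + n) * g n‖ ≤ 1 := by
      intro n hn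
      have hee : ee (ξ * ((n - 1 : ℤ) : ℝ)) = ee (-(ξ * y)) * ee (ξ * ((y + n - 1 : ℤ) : ℝ)) := by
        rw [← ee_add]; congr 1; push_cast; ring
      have hf1 : f₁ y = ee (-(ξ * y)) := by simp [hf₁, hyA, hyB]
      by_cases h0 : y - (n - 1) ∈ A
      · by_cases h2 : y + (n - 1) ∈ A
        · -- the product is either the same or zero
          have key : f₀ (y - n) * f₁ y * f₂ (y + n) = ee (ξ * ((n - 1 : ℤ) : ℝ)) ∨
              f₀ (y - n) * f₁ y * f₂ (y + n) = 0 := by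
            by_cases h3 : 1 ≤ y - n
            · by_cases h4 : y + n ≤ N
              · left
                have hf0 : f₀ (y - n) = 1 := by
                  simp only [hf₀]; rw [if_pos]; exact ⟨by convert h0 using 1; ring, h3⟩
                have hf2 : f₂ (y + n) = ee (ξ * ((y + n - 1 : ℤ) : ℝ)) := by
                  simp only [hf₂]; rw [if_pos]; exact ⟨by convert h2 using 1; ring, h4⟩
                rw [hf0, hf1, hf2, hee]; ring
              · right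
                have hf2 : f₂ (y + n) = 0 := by
                  simp only [hf₂]; rw [if_neg]; intro h; exact h4 h.2
                rw [hf2]; ring
            · right
              have hf0 : f₀ (y - n) = 0 := by
                simp only [hf₀]; rw [if_neg]; intro h; exact h3 h.2
              rw [hf0]; ring
          rw [if_pos ⟨h0, h2⟩]
          rcases key with k | k
          · rw [k]; simp
          · rw [k]; simp [norm_ee, hg n]
        · have hf2 : f₂ (y + n) = 0 := by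
            simp only [hf₂]
            rw [if_neg]
            intro h
            exact h2 (by convert h.1 using 1; ring)
          rw [if_neg (fun h => h2 h.2), hf2]; simp
      · have hf0 : f₀ (y - n) = 0 := by
          simp only [hf₀]
          rw [if_neg]
          intro h
          exact h0 (by convert h.1 using 1; ring)
        rw [if_neg (fun h => h0 h.1), hf0]; simp
    calc ‖∑ n ∈ Finset.Icc (1 : ℤ) N, ((if y - (n - 1) ∈ A ∧ y + (n - 1) ∈ A then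
            ee (ξ * ((n - 1 : ℤ) : ℝ)) else 0) * g n - f₀ (y - n) * f₁ y * f₂ (y + n) * g n)‖
        = ‖∑ n ∈ (Finset.Icc (1 : ℤ) N).filter (fun n => n ∈ ({y, (N : ℤ) + 1 - y} : Finset ℤ)),
            ((if y - (n - 1) ∈ A ∧ y + (n - 1) ∈ A then
            ee (ξ * ((n - 1 : ℤ) : ℝ)) else 0) * g n - f₀ (y - n) * f₁ y * f₂ (y + n) * g n)‖ := by
          congr 1
          symm
          refine Finset.sum_subset (Finset.filter_subset _ _) ?_
          intro n hn hn2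
          refine hz n hn ?_
          intro h; exact hn2 (Finset.mem_filter.2 ⟨hn, h⟩)
      _ ≤ ∑ n ∈ (Finset.Icc (1 : ℤ) N).filter (fun n => n ∈ ({y, (N : ℤ) + 1 - y} : Finset ℤ)), (1 : ℝ) := by
          refine (norm_sum_le _ _).trans (Finset.sum_le_sum fun n hn => ?_)
          exact hb n (Finset.mem_filter.1 hn).1
      _ ≤ 2 := by
          rw [Finset.sum_const, nsmul_eq_mul, mul_one]
          have : ((Finset.Icc (1 : ℤ) N).filter (fun n => n ∈ ({y, (N : ℤ) + 1 - y} : Finset ℤ))).card ≤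
              ({y, (N : ℤ) + 1 - y} : Finset ℤ).card := by
            refine Finset.card_le_card ?_
            intro n hn; exact (Finset.mem_filter.1 hn).2
          have h2 : ({y, (N : ℤ) + 1 - y} : Finset ℤ).card ≤ 2 := Finset.card_le_two
          exact_mod_cast this.trans h2
  have hcard : ((A ∩ B).card : ℝ) ≤ N := by
    have h := Finset.card_le_card ((Finset.inter_subset_left (s₁ := A) (s₂ := B)).trans hA)
    rw [Int.card_Icc] at h
    have : (((N : ℤ) + 1 - 1).toNat : ℝ) = N := by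
      have : ((N : ℤ) + 1 - 1).toNat = N := by omega
      rw [this]
    calc ((A ∩ B).card : ℝ) ≤ (((N : ℤ) + 1 - 1).toNat : ℝ) := by exact_mod_cast h
      _ = N := this
  rw [e1]
  rw [e2] at h1
  calc _ = ‖((∑ y ∈ A ∩ B, ∑ n ∈ Finset.Icc (1 : ℤ) N,
      (if y - (n - 1) ∈ A ∧ y + (n - 1) ∈ A then ee (ξ * ((n - 1 : ℤ) : ℝ)) else 0) * g n) -
      ∑ y ∈ A ∩ B, ∑ n ∈ Finset.Icc (1 : ℤ) N, f₀ (y - n) * f₁ y * f₂ (y + n) * g n) +
      ∑ y ∈ A ∩ B, ∑ n ∈ Finset.Icc (1 : ℤ) N, f₀ (y - n) * f₁ y * f₂ (y + n) * g n‖ := by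
        rw [sub_add_cancel]
    _ ≤ _ := norm_add_le _ _
    _ ≤ ∑ y ∈ A ∩ B, (2 : ℝ) + δ * (N : ℝ) ^ 2 := add_le_add e3 h1
    _ ≤ δ * (N : ℝ) ^ 2 + 2 * N := by
        rw [Finset.sum_const, nsmul_eq_mul]; linarith

open Classical in
/-- a convex combination of exponentials -/
theorem F1_wt (N : ℕ) (δ : ℝ) (g : ℤ → ℂ) (hg : ∀ n, ‖g n‖ ≤ 1) (A B : Finset ℤ)
    (hA : A ⊆ Finset.Icc 1 (N : ℤ)) (hδ : 0 ≤ δ)
    (hT : ∀ f₀ f₁ f₂ : ℤ → ℂ, (∀ n, ‖f₀ n‖ ≤ 1) → (∀ n, ‖f₁ n‖ ≤ 1) → (∀ n, ‖f₂ n‖ ≤ 1) →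
      (∀ n, f₀ n ≠ 0 → 1 ≤ n ∧ n ≤ N) → (∀ n, f₁ n ≠ 0 → 1 ≤ n ∧ n ≤ N) →
      (∀ n, f₂ n ≠ 0 → 1 ≤ n ∧ n ≤ N) →
      ‖∑ y ∈ Finset.Icc (1 : ℤ) N, ∑ n ∈ Finset.Icc (1 : ℤ) N,
        f₀ (y - n) * f₁ y * f₂ (y + n) * g n‖ ≤ δ * (N : ℝ) ^ 2)
    (k : ℕ) (cc ξ : Fin k → ℝ) (hcc : ∀ i, 0 ≤ cc i) (hs : ∑ i, cc i ≤ 1) :
    ‖∑ y ∈ B, ∑ n ∈ Finset.Icc (1 : ℤ) N,
      (if y - (n - 1) ∈ A ∧ y ∈ A ∧ y + (n - 1) ∈ A then wt cc ξ (n - 1) else 0) * g n‖ ≤
      δ * (N : ℝ) ^ 2 + 2 * N := by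
  have e : ∑ y ∈ B, ∑ n ∈ Finset.Icc (1 : ℤ) N,
      (if y - (n - 1) ∈ A ∧ y ∈ A ∧ y + (n - 1) ∈ A then wt cc ξ (n - 1) else 0) * g n =
      ∑ i, (cc i : ℂ) * ∑ y ∈ B, ∑ n ∈ Finset.Icc (1 : ℤ) N,
        (if y - (n - 1) ∈ A ∧ y ∈ A ∧ y + (n - 1) ∈ A then ee (ξ i * ((n - 1 : ℤ) : ℝ)) else 0) * g n := by
    have h1 : ∀ i, (cc i : ℂ) * ∑ y ∈ B, ∑ n ∈ Finset.Icc (1 : ℤ) N,
        (if y - (n - 1) ∈ A ∧ y ∈ A ∧ y + (n - 1) ∈ A then ee (ξ i * ((n - 1 : ℤ) : ℝ)) else 0) * g n =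
        ∑ y ∈ B, ∑ n ∈ Finset.Icc (1 : ℤ) N, (cc i : ℂ) *
        ((if y - (n - 1) ∈ A ∧ y ∈ A ∧ y + (n - 1) ∈ A then ee (ξ i * ((n - 1 : ℤ) : ℝ)) else 0) * g n) := by
      intro i
      rw [Finset.mul_sum]
      refine Finset.sum_congr rfl fun y _ => ?_
      rw [Finset.mul_sum]
    symm
    rw [Finset.sum_congr rfl (fun i _ => h1 i), Finset.sum_comm]
    refine Finset.sum_congr rfl fun y _ => ?_
    rw [Finset.sum_comm]
    refine Finset.sum_congr rfl fun n _ => ?_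
    split_ifs with h
    · unfold wt
      rw [Finset.sum_mul]
      refine Finset.sum_congr rfl fun i _ => ?_
      ring
    · simp
  rw [e]
  refine (norm_sum_le _ _).trans ?_
  calc ∑ i, ‖(cc i : ℂ) * ∑ y ∈ B, ∑ n ∈ Finset.Icc (1 : ℤ) N,
        (if y - (n - 1) ∈ A ∧ y ∈ A ∧ y + (n - 1) ∈ A then ee (ξ i * ((n - 1 : ℤ) : ℝ)) else 0) * g n‖
      ≤ ∑ i, cc i * (δ * (N : ℝ) ^ 2 + 2 * N) := by
        refine Finset.sum_le_sum fun i _ => ?_
        rw [norm_mul, Complex.norm_real, Real.norm_of_nonneg (hcc i)]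
        exact mul_le_mul_of_nonneg_left (F1_one N δ (ξ i) g hg A B hA hT) (hcc i)
    _ = (∑ i, cc i) * (δ * (N : ℝ) ^ 2 + 2 * N) := by rw [Finset.sum_mul]
    _ ≤ 1 * (δ * (N : ℝ) ^ 2 + 2 * N) := by
        refine mul_le_mul_of_nonneg_right hs ?_
        positivity
    _ = _ := one_mul _

end Pool.Agent.APP
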