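import Pool.Agent.Lib.MP_8a4e59_co.F.F1

set_option autoImplicit false

/-!
Final assembly, part 2: the core inequality.
-/

namespace Pool.Agent.APP

open Finset ArithmeticFunction

theorem F2_nonprime (N : ℕ) (hN : 1 ≤ N) :
    ∑ n ∈ (Finset.Icc (1 : ℤ) N).filter (fun n => ¬ n.toNat.Prime), vonMangoldt n.toNat ≤
      2 * Real.sqrt N * Real.log N := by
  have h := Chebyshev.psi_sub_theta_le (x := (N : ℝ)) (by exact_mod_cast hN)
  rw [Chebyshev.psi_sub_theta_eq_sum_not_prime] at h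
  refine le_trans (le_of_eq ?_) h
  rw [Nat.floor_natCast]
  refine Finset.sum_bij (fun n _ => n.toNat) ?_ ?_ ?_ ?_
  · intro n hn
    simp only [Finset.mem_filter, Finset.mem_Icc, Finset.mem_Ioc] at hn ⊢
    refine ⟨⟨by omega, by omega⟩, hn.2⟩
  · intro a ha b hb h
    simp only [Finset.mem_filter, Finset.mem_Icc] at ha hb
    omega
  · intro b hb
    simp only [Finset.mem_filter, Finset.mem_Ioc] at hb
    refine ⟨(b : ℤ), ?_, by simp⟩
    simp only [Finset.mem_filter, Finset.mem_Icc, Int.toNat_natCast]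
    refine ⟨⟨by omega, by omega⟩, hb.2⟩
  · intro a _; rfl

theorem wt_re_le {k : ℕ} (cc ξ : Fin k → ℝ) (hcc : ∀ i, 0 ≤ cc i) (hs : ∑ i, cc i ≤ 1) (d : ℤ) :
    (wt cc ξ d).re ≤ 1 := by
  refine (Complex.re_le_norm _).trans ?_
  unfold wt
  refine (norm_sum_le _ _).trans (le_trans (le_of_eq ?_) hs)
  refine Finset.sum_congr rfl fun i _ => ?_
  rw [norm_mul, norm_ee, mul_one, Complex.norm_real, Real.norm_of_nonneg (hcc i)]

open Classical in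
/-- The core inequality. -/
theorem F2_core (K N s t q₀ : ℕ) (κ M : ℝ) (om : ℕ → ℝ) (A : Finset ℤ)
    (hB : ∀ (δ : ℝ) (N q₀ : ℕ) (X₁ V₁ X₂ V₂ Y : ℝ) (g f₀ f₁ f₂ : ℤ → ℂ),
    0 < δ → δ ≤ 1 / 2 → 1 ≤ q₀ → 1 ≤ X₁ → 1 ≤ X₂ → Real.log N ≤ 1 / δ →
    (∀ n, ‖g n‖ ≤ 1) → (∀ n, g n ≠ 0 → 1 ≤ n ∧ n ≤ N) →
    Dec δ N q₀ X₁ V₁ (δ ^ K) g → Dec δ N q₀ X₂ V₂ ((δ / (q₀ * X₁)) ^ K) g → ZZ (δ ^ K) Y N g →
    (1 / δ) ^ K ≤ V₁ → (q₀ * X₁ / δ) ^ K ≤ V₂ → (q₀ * X₁ * X₂ * V₂ / δ) ^ K ≤ Y → Y ^ K ≤ N →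
    (∀ n, ‖f₀ n‖ ≤ 1) → (∀ n, ‖f₁ n‖ ≤ 1) → (∀ n, ‖f₂ n‖ ≤ 1) →
    (∀ n, f₀ n ≠ 0 → 1 ≤ n ∧ n ≤ N) → (∀ n, f₁ n ≠ 0 → 1 ≤ n ∧ n ≤ N) →
    (∀ n, f₂ n ≠ 0 → 1 ≤ n ∧ n ≤ N) →
    δ * (N : ℝ) ^ 2 ≤ ‖∑ y ∈ Finset.Icc (1 : ℤ) N, ∑ n ∈ Finset.Icc (1 : ℤ) N,
      f₀ (y - n) * f₁ y * f₂ (y + n) * g n‖ →
    ∃ (q H : ℕ) (a u : ℤ), 1 ≤ q ∧ (q : ℝ) ≤ Y ∧ (N : ℝ) / Y ≤ H ∧ 0 ≤ u ∧ u + H ≤ N ∧
      Int.gcd a q = 1 ∧
      δ ^ K * (H / q) ≤ ‖∑ x ∈ (Finset.Ioc u (u + H)).filter (fun x => (q : ℤ) ∣ x - a), g x‖)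
    (hA : A ⊆ Finset.Icc 1 (N : ℤ))
    (hno : ∀ (x : ℤ) (p : ℕ), p.Prime → ¬ (x ∈ A ∧ x + ((p : ℤ) - 1) ∈ A ∧ x + 2 * ((p : ℤ) - 1) ∈ A))
    (hq₀ : 1 ≤ q₀) (hN : 3 ≤ N) (hlog : Real.log N ≤ XX s N) (hX2 : 2 ≤ XX s N)
    (hXN : XX s N < N)
    (hPP : PP K s t N q₀ om) (hκ : 0 ≤ κ) (hom : ∀ n : ℕ, 2 ≤ n → κ ≤ 1 - om n)
    (k : ℕ) (cc ξ : Fin k → ℝ) (B : Finset ℤ) (hcc : ∀ i, 0 ≤ cc i) (hs : ∑ i, cc i ≤ 1)
    (hwt : ∀ d : ℤ, (wt cc ξ d).im = 0 ∧ 0 ≤ (wt cc ξ d).re)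
    (hM : M ≤ ∑ y ∈ B, ∑ n ∈ (Finset.Icc (1 : ℤ) (N : ℤ)).filter
        (fun n : ℤ => (XX s N)⁻¹ * (N : ℝ) ≤ (n : ℝ)),
      (if y - (n - 1) ∈ A ∧ y ∈ A ∧ y + (n - 1) ∈ A then (wt cc ξ (n - 1)).re else 0) *
        (CQ (XX (s + 1) N) * (if rough (XX (s + 1) N) n then 1 else 0))) :
    κ * M ≤ (Real.log N) ^ 2 * ((XX s N)⁻¹ * (N : ℝ) ^ 2 + 2 * N) + N * (2 * Real.sqrt N * Real.log N) := by
  obtain ⟨X₁, V₁, X₂, V₂, Y, hX₁, hX₂, hg1, hd1, hd2, hzz, hV1, hV2, hY, hYN, _, hfin⟩ := hPP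
  set δ : ℝ := (XX s N)⁻¹ with hδ
  set Q : ℝ := XX (s + 1) N with hQ
  have hXpos : 0 < XX s N := Real.exp_pos _
  have hδpos : 0 < δ := inv_pos.2 hXpos
  have hδinv : 1 / δ = XX s N := by rw [hδ]; simp
  have hL : 0 < Real.log N := Real.log_pos (by exact_mod_cast (by omega : 1 < N))
  have hgsupp : ∀ n : ℤ, ((gg δ Q N om n : ℝ) : ℂ) ≠ 0 → 1 ≤ n ∧ n ≤ N := by
    intro n hn
    by_contra hcon
    apply hn
    unfold gg
    rw [if_neg]
    · simp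
    · rintro ⟨h1, _, h2⟩; exact hcon ⟨h1, h2⟩
  have hT : ∀ f₀ f₁ f₂ : ℤ → ℂ, (∀ n, ‖f₀ n‖ ≤ 1) → (∀ n, ‖f₁ n‖ ≤ 1) → (∀ n, ‖f₂ n‖ ≤ 1) →
      (∀ n, f₀ n ≠ 0 → 1 ≤ n ∧ n ≤ N) → (∀ n, f₁ n ≠ 0 → 1 ≤ n ∧ n ≤ N) →
      (∀ n, f₂ n ≠ 0 → 1 ≤ n ∧ n ≤ N) →
      ‖∑ y ∈ Finset.Icc (1 : ℤ) N, ∑ n ∈ Finset.Icc (1 : ℤ) N,
        f₀ (y - n) * f₁ y * f₂ (y + n) * (gg δ Q N om n : ℂ)‖ ≤ δ * (N : ℝ) ^ 2 := by
    intro f₀ f₁ f₂ b0 b1 b2 s0 s1 s2
    by_contra hcon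
    rw [not_le] at hcon
    obtain ⟨q, H, a, u, hq1, hqY, hHY, hu, huN, hcop, hbig⟩ :=
      hB δ N q₀ X₁ V₁ X₂ V₂ Y (fun n => (gg δ Q N om n : ℂ)) f₀ f₁ f₂ hδpos
        (by rw [hδ, inv_le_comm₀ hXpos (by norm_num)]; norm_num; exact hX2) hq₀ hX₁ hX₂
        (by rw [hδinv]; exact hlog) hg1 hgsupp hd1 hd2 hzz (by rw [hδinv]; exact hV1)
        (by
          refine le_trans (le_of_eq ?_) hV2
          rw [hδ]; field_simp)
        (by
          refine le_trans (le_of_eq ?_) hY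
          rw [hδ]; field_simp) hYN b0 b1 b2 s0 s1 s2 hcon.le
    have := hfin q H a u hq1 hqY hHY hu huN hcop
    have h2 : ‖∑ x ∈ (Finset.Ioc u (u + H)).filter (fun x => (q : ℤ) ∣ x - a),
        ((gg δ Q N om x : ℝ) : ℂ)‖ = |∑ x ∈ (Finset.Ioc u (u + H)).filter (fun x => (q : ℤ) ∣ x - a),
        gg δ Q N om x| := by
      rw [← Complex.ofReal_sum, Complex.norm_real, Real.norm_eq_abs]
    rw [h2] at hbig
    linarith
  have hF1 := F1_wt N δ (fun n => (gg δ Q N om n : ℂ)) hg1 A B hA hδpos.le hT k cc ξ hcc hs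
  -- real version
  set a : ℤ → ℤ → ℝ := fun y n =>
    if y - (n - 1) ∈ A ∧ y ∈ A ∧ y + (n - 1) ∈ A then (wt cc ξ (n - 1)).re else 0 with ha
  have ha0 : ∀ y n, 0 ≤ a y n := by
    intro y n; simp only [ha]; split_ifs
    · exact (hwt _).2
    · exact le_refl _
  have ha1 : ∀ y n, a y n ≤ 1 := by
    intro y n; simp only [ha]; split_ifs
    · exact wt_re_le cc ξ hcc hs _
    · exact zero_le_one
  have hre : ∑ y ∈ B, ∑ n ∈ Finset.Icc (1 : ℤ) N,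
      (if y - (n - 1) ∈ A ∧ y ∈ A ∧ y + (n - 1) ∈ A then wt cc ξ (n - 1) else 0) *
        (gg δ Q N om n : ℂ) = ((∑ y ∈ B, ∑ n ∈ Finset.Icc (1 : ℤ) N, a y n * gg δ Q N om n : ℝ) : ℂ) := by
    push_cast
    refine Finset.sum_congr rfl fun y _ => Finset.sum_congr rfl fun n _ => ?_
    congr 1
    simp only [ha]
    split_ifs
    · exact (Complex.ext (by simp) (by simp [(hwt (n - 1)).1]))
    · simp
  rw [hre, Complex.norm_real, Real.norm_eq_abs] at hF1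
  -- split `gg`
  have hsplit : ∑ y ∈ B, ∑ n ∈ Finset.Icc (1 : ℤ) N, a y n * gg δ Q N om n =
      (∑ y ∈ B, ∑ n ∈ (Finset.Icc (1 : ℤ) (N : ℤ)).filter (fun n : ℤ => δ * (N : ℝ) ≤ (n : ℝ)),
        a y n * vonMangoldt n.toNat -
      ∑ y ∈ B, ∑ n ∈ (Finset.Icc (1 : ℤ) (N : ℤ)).filter (fun n : ℤ => δ * (N : ℝ) ≤ (n : ℝ)),
        a y n * (CQ Q * (if rough Q n then 1 else 0)) * (1 - om n.toNat)) / (Real.log N) ^ 2 := by
    rw [← Finset.sum_sub_distrib, Finset.sum_div]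
    refine Finset.sum_congr rfl fun y _ => ?_
    rw [← Finset.sum_sub_distrib, Finset.sum_div, Finset.sum_filter]
    refine Finset.sum_congr rfl fun n hn => ?_
    rw [Finset.mem_Icc] at hn
    unfold gg
    by_cases h : δ * (N : ℝ) ≤ (n : ℝ)
    · rw [if_pos ⟨hn.1, h, hn.2⟩, if_pos h]
      ring
    · rw [if_neg (fun hh => h hh.2.1), if_neg h]
      simp
  -- first sum
  have hI3 : ∑ y ∈ B, ∑ n ∈ (Finset.Icc (1 : ℤ) (N : ℤ)).filter (fun n : ℤ => δ * (N : ℝ) ≤ (n : ℝ)),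
        a y n * vonMangoldt n.toNat ≤ N * (2 * Real.sqrt N * Real.log N) := by
    have h0 : ∀ y ∈ B, ∑ n ∈ (Finset.Icc (1 : ℤ) (N : ℤ)).filter (fun n : ℤ => δ * (N : ℝ) ≤ (n : ℝ)),
        a y n * vonMangoldt n.toNat ≤ if y ∈ A then 2 * Real.sqrt N * Real.log N else 0 := by
      intro y _
      by_cases hy : y ∈ A
      · rw [if_pos hy]
        refine le_trans ?_ (F2_nonprime N (by omega))
        calc ∑ n ∈ (Finset.Icc (1 : ℤ) (N : ℤ)).filter (fun n : ℤ => δ * (N : ℝ) ≤ (n : ℝ)),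
              a y n * vonMangoldt n.toNat
            ≤ ∑ n ∈ Finset.Icc (1 : ℤ) (N : ℤ), a y n * vonMangoldt n.toNat := by
              refine Finset.sum_le_sum_of_subset_of_nonneg (Finset.filter_subset _ _) ?_
              intro n _ _
              exact mul_nonneg (ha0 y n) vonMangoldt_nonneg
          _ ≤ ∑ n ∈ (Finset.Icc (1 : ℤ) N).filter (fun n => ¬ n.toNat.Prime), vonMangoldt n.toNat := by
              rw [Finset.sum_filter]
              refine Finset.sum_le_sum fun n hn => ?_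
              rw [Finset.mem_Icc] at hn
              by_cases hp : n.toNat.Prime
              · have : a y n = 0 := by
                  simp only [ha]
                  rw [if_neg]
                  rintro ⟨h1, h2, h3⟩
                  refine hno (y - (n - 1)) n.toNat hp ⟨h1, ?_, ?_⟩
                  · convert h2 using 1
                    rw [Int.toNat_of_nonneg (by omega)]; ring
                  · convert h3 using 1
                    rw [Int.toNat_of_nonneg (by omega)]; ring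
                rw [this, if_neg (not_not.2 hp)]; simp
              · rw [if_pos hp]
                calc a y n * vonMangoldt n.toNat ≤ 1 * vonMangoldt n.toNat :=
                      mul_le_mul_of_nonneg_right (ha1 y n) vonMangoldt_nonneg
                  _ = _ := one_mul _
      · rw [if_neg hy]
        refine le_of_eq (Finset.sum_eq_zero fun n _ => ?_)
        have : a y n = 0 := by
          simp only [ha]
          rw [if_neg]
          rintro ⟨_, h2, _⟩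
          exact hy h2
        rw [this, zero_mul]
    refine (Finset.sum_le_sum h0).trans ?_
    rw [← Finset.sum_filter, Finset.sum_const, nsmul_eq_mul]
    have hc : ((B.filter (fun y => y ∈ A)).card : ℝ) ≤ N := by
      have h1 : (B.filter (fun y => y ∈ A)).card ≤ (Finset.Icc 1 (N : ℤ)).card :=
        Finset.card_le_card (fun y hy => hA (Finset.mem_filter.1 hy).2)
      rw [Int.card_Icc] at h1
      have : (B.filter (fun y => y ∈ A)).card ≤ N := by omega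
      exact_mod_cast this
    refine mul_le_mul_of_nonneg_right hc ?_
    positivity
  -- second sum
  have hCQ : 0 ≤ CQ Q := by
    unfold CQ
    refine Finset.prod_nonneg fun p hp => ?_
    have hp2 : 2 ≤ p := (Finset.mem_filter.1 hp).2.two_le
    have : (2 : ℝ) ≤ p := by exact_mod_cast hp2
    refine inv_nonneg.2 ?_
    rw [sub_nonneg, div_le_one (by linarith)]
    linarith
  have hI4 : κ * M ≤ ∑ y ∈ B, ∑ n ∈ (Finset.Icc (1 : ℤ) (N : ℤ)).filter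
      (fun n : ℤ => δ * (N : ℝ) ≤ (n : ℝ)),
        a y n * (CQ Q * (if rough Q n then 1 else 0)) * (1 - om n.toNat) := by
    refine (mul_le_mul_of_nonneg_left hM hκ).trans ?_
    rw [Finset.mul_sum]
    refine Finset.sum_le_sum fun y _ => ?_
    rw [Finset.mul_sum]
    refine Finset.sum_le_sum fun n hn => ?_
    rw [Finset.mem_filter, Finset.mem_Icc] at hn
    have h1 : 0 ≤ a y n * (CQ Q * (if rough Q n then 1 else 0)) := by
      refine mul_nonneg (ha0 y n) (mul_nonneg hCQ ?_)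
      split_ifs <;> norm_num
    rw [mul_comm κ]
    have h2 : 2 ≤ n.toNat := by
      have h3 : 1 < δ * (N : ℝ) := by
        rw [hδ, inv_mul_eq_div, one_lt_div hXpos]; exact hXN
      have h4 : (1 : ℝ) < (n : ℝ) := lt_of_lt_of_le h3 hn.2
      have h5 : (1 : ℤ) < n := by exact_mod_cast h4
      omega
    refine mul_le_mul_of_nonneg_left (hom n.toNat h2) h1
  have hlog2 : 0 < (Real.log N) ^ 2 := by positivity
  have hneg := (abs_le.1 hF1).1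
  rw [hsplit, le_div_iff₀ hlog2] at hneg
  nlinarith [hneg, hI3, hI4]

end Pool.Agent.APP
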